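import Pool.Agent.H77.N2.Defs
import Pool.Agent.H37.FB.Homog

/-!
The Gaussian (Fock) norm on entire functions of exponential type: the pointwise bound and the
Cauchy-Schwarz inequality (helper16, for MP_6e521b_an).
-/

open MvPolynomial Filter Topology MeasureTheory Pool.Agent.H77.FB Pool.Agent.H60.FB

namespace Pool.Agent.H16.FK

variable {n : ℕ}

/-- The square of the Gaussian norm. -/
noncomputable def gn (f : (Fin n → ℂ) → ℂ) : ℝ := ∫ z, ‖f z‖ ^ 2 * gw z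

/-- The Gaussian inner product. -/
noncomputable def gb (f g : (Fin n → ℂ) → ℂ) : ℂ :=
  ∫ z, (f z * (starRingEnd ℂ) (g z)) * (gw z : ℂ)

lemma gn_nonneg (f : (Fin n → ℂ) → ℂ) : 0 ≤ gn f :=
  integral_nonneg fun z => mul_nonneg (sq_nonneg _) (gw_pos z).le

lemma gn_int {f : (Fin n → ℂ) → ℂ} (hf : f ∈ ExpT n) :
    Integrable (fun z => ‖f z‖ ^ 2 * gw z) := by
  obtain ⟨hd, C, hC, B, hB, hb⟩ := hf
  refine integrable_of_bound (C := C ^ 2) (B := 2 * B)
    ((hd.continuous.norm.pow 2).mul continuous_gw) fun z => ?_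
  rw [norm_mul, norm_pow, norm_norm, Real.norm_of_nonneg (gw_pos z).le]
  refine mul_le_mul_of_nonneg_right ?_ (gw_pos z).le
  calc ‖f z‖ ^ 2 ≤ (C * Real.exp (B * ‖z‖)) ^ 2 := pow_le_pow_left₀ (norm_nonneg _) (hb z) 2
    _ = C ^ 2 * (Real.exp (B * ‖z‖) * Real.exp (B * ‖z‖)) := by ring
    _ = _ := by rw [← Real.exp_add]; ring_nf

lemma gb_int {f g : (Fin n → ℂ) → ℂ} (hf : f ∈ ExpT n) (hg : g ∈ ExpT n) :
    Integrable (fun z => (f z * (starRingEnd ℂ) (g z)) * (gw z : ℂ)) := by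
  obtain ⟨hd, C, hC, B, hB, hb⟩ := hf
  obtain ⟨hd', C', hC', B', hB', hb'⟩ := hg
  refine integrable_of_bound (C := C * C') (B := B + B')
    ((hd.continuous.mul (Complex.continuous_conj.comp hd'.continuous)).mul
      (Complex.continuous_ofReal.comp continuous_gw)) fun z => ?_
  rw [norm_mul, norm_mul, RCLike.norm_conj, Complex.norm_real, Real.norm_of_nonneg (gw_pos z).le]
  refine mul_le_mul_of_nonneg_right ?_ (gw_pos z).le
  calc ‖f z‖ * ‖g z‖ ≤ (C * Real.exp (B * ‖z‖)) * (C' * Real.exp (B' * ‖z‖)) :=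
        mul_le_mul (hb z) (hb' z) (norm_nonneg _) (by positivity)
    _ = C * C' * (Real.exp (B * ‖z‖) * Real.exp (B' * ‖z‖)) := by ring
    _ = _ := by rw [← Real.exp_add]; ring_nf

lemma gb_self {f : (Fin n → ℂ) → ℂ} : gb f f = gn f := by
  unfold gb gn
  rw [← integral_complex_ofReal]
  refine integral_congr_ae (Filter.Eventually.of_forall fun z => ?_)
  change (f z * (starRingEnd ℂ) (f z)) * (gw z : ℂ) = _
  rw [Complex.mul_conj, Complex.normSq_eq_norm_sq]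
  push_cast
  rfl

lemma gb_conj (f g : (Fin n → ℂ) → ℂ) : (starRingEnd ℂ) (gb f g) = gb g f := by
  unfold gb
  rw [← integral_conj]
  refine integral_congr_ae (Filter.Eventually.of_forall fun z => ?_)
  change (starRingEnd ℂ) ((f z * (starRingEnd ℂ) (g z)) * (gw z : ℂ))
    = (g z * (starRingEnd ℂ) (f z)) * (gw z : ℂ)
  rw [map_mul, map_mul, Complex.conj_conj, Complex.conj_ofReal]
  ring

/-- Cauchy-Schwarz. -/
lemma gb_cs {f g : (Fin n → ℂ) → ℂ} (hf : f ∈ ExpT n) (hg : g ∈ ExpT n) :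
    ‖gb f g‖ ^ 2 ≤ gn f * gn g := by
  have e1 : ∀ (u : (Fin n → ℂ) → ℂ) z, (‖u z‖ * hw z) ^ 2 = ‖u z‖ ^ 2 * gw z := by
    intro u z
    rw [mul_pow, pow_two (hw z), hw_sq]
  have i1 : Integrable (fun z => (‖f z‖ * hw z) ^ 2) :=
    (gn_int hf).congr (Filter.Eventually.of_forall fun z => (e1 f z).symm)
  have i2 : Integrable (fun z => (‖g z‖ * hw z) ^ 2) :=
    (gn_int hg).congr (Filter.Eventually.of_forall fun z => (e1 g z).symm)
  have e2 : ∀ z, (‖f z‖ * hw z) * (‖g z‖ * hw z)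
      = ‖(f z * (starRingEnd ℂ) (g z)) * (gw z : ℂ)‖ := by
    intro z
    rw [norm_mul, norm_mul, RCLike.norm_conj, Complex.norm_real,
      Real.norm_of_nonneg (gw_pos z).le, ← hw_sq]
    ring
  have i3 : Integrable (fun z => (‖f z‖ * hw z) * (‖g z‖ * hw z)) :=
    (gb_int hf hg).norm.congr (Filter.Eventually.of_forall fun z => (e2 z).symm)
  have h := cs_real i1 i2 i3
  have h1 : ‖gb f g‖ ≤ ∫ z, (‖f z‖ * hw z) * (‖g z‖ * hw z) := by
    refine (norm_integral_le_integral_norm _).trans (le_of_eq ?_)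
    exact integral_congr_ae (Filter.Eventually.of_forall fun z => (e2 z).symm)
  have h2 : ∫ z, (‖f z‖ * hw z) ^ 2 = gn f :=
    integral_congr_ae (Filter.Eventually.of_forall fun z => e1 f z)
  have h3 : ∫ z, (‖g z‖ * hw z) ^ 2 = gn g :=
    integral_congr_ae (Filter.Eventually.of_forall fun z => e1 g z)
  rw [h2, h3] at h
  exact (pow_le_pow_left₀ (norm_nonneg _) h1 2).trans h

/-- Translation of the Gaussian weight. -/
lemma gw_shift (z ζ : Fin n → ℂ) :
    ‖Complex.exp (∑ j, z j * (-(starRingEnd ℂ) (ζ j)))‖ ^ 2 * gw z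
      = Real.exp (sq ζ) * gw (z + ζ) := by
  rw [Complex.norm_exp, ← Real.exp_nat_mul]
  unfold gw Pool.Agent.H60.FB.sq
  rw [← Real.exp_add, ← Real.exp_add]
  congr 1
  rw [Complex.re_sum, Finset.mul_sum, ← Finset.sum_neg_distrib, ← Finset.sum_neg_distrib,
    ← Finset.sum_add_distrib, ← Finset.sum_add_distrib]
  refine Finset.sum_congr rfl fun j _ => ?_
  rw [Pi.add_apply, ← Complex.normSq_eq_norm_sq, ← Complex.normSq_eq_norm_sq,
    ← Complex.normSq_eq_norm_sq, Complex.normSq_add]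
  simp only [Complex.mul_re, Complex.neg_re, Complex.neg_im, Complex.conj_re, Complex.conj_im]
  push_cast
  ring

/-- The shifted function of the reproducing formula. -/
noncomputable def sh (f : (Fin n → ℂ) → ℂ) (ζ : Fin n → ℂ) (z : Fin n → ℂ) : ℂ :=
  f (z + ζ) * Complex.exp (∑ j, z j * (-(starRingEnd ℂ) (ζ j)))

lemma sh_mem {f : (Fin n → ℂ) → ℂ} (hf : f ∈ ExpT n) (ζ : Fin n → ℂ) : sh f ζ ∈ ExpT n := by
  obtain ⟨hd, C, hC, B, hB, hb⟩ := hf
  refine ⟨?_, C * Real.exp (B * ‖ζ‖), by positivity, B + n * ‖ζ‖, by positivity, fun z => ?_⟩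
  · have h6 : Differentiable ℂ (fun z : Fin n → ℂ => f (z + ζ)) :=
      hd.comp (differentiable_id.add_const ζ)
    have h7 : Differentiable ℂ (fun z : Fin n → ℂ =>
        Complex.exp (∑ j, z j * (-(starRingEnd ℂ) (ζ j)))) := by fun_prop
    exact h6.mul h7
  · have h8 := Pool.Agent.H77.FB.norm_expo_le (fun j => -(starRingEnd ℂ) (ζ j)) z
    have h9 : ‖(fun j => -(starRingEnd ℂ) (ζ j))‖ = ‖ζ‖ := by
      simp [Pi.norm_def]
    rw [h9] at h8
    have h10 := hb (z + ζ)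
    have h11 : Real.exp (B * ‖z + ζ‖) ≤ Real.exp (B * ‖ζ‖) * Real.exp (B * ‖z‖) := by
      rw [← Real.exp_add]
      apply Real.exp_le_exp.2
      have := norm_add_le z ζ
      nlinarith
    calc ‖sh f ζ z‖ = ‖f (z + ζ)‖ * ‖Complex.exp (∑ j, z j * (-(starRingEnd ℂ) (ζ j)))‖ :=
          norm_mul _ _
      _ ≤ (C * (Real.exp (B * ‖ζ‖) * Real.exp (B * ‖z‖))) * Real.exp (n * ‖z‖ * ‖ζ‖) := by
          apply mul_le_mul (h10.trans (by gcongr)) h8 (norm_nonneg _) (by positivity)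
      _ = C * Real.exp (B * ‖ζ‖) * (Real.exp (B * ‖z‖) * Real.exp (n * ‖z‖ * ‖ζ‖)) := by ring
      _ = _ := by rw [← Real.exp_add]; ring_nf

lemma gn_sh (f : (Fin n → ℂ) → ℂ) (ζ : Fin n → ℂ) :
    gn (sh f ζ) = Real.exp (sq ζ) * gn f := by
  have h1 : ∀ z, ‖sh f ζ z‖ ^ 2 * gw z = Real.exp (sq ζ) * (‖f (z + ζ)‖ ^ 2 * gw (z + ζ)) := by
    intro z
    unfold sh
    rw [norm_mul, mul_pow, mul_assoc, gw_shift]
    ring
  unfold gn
  simp only [h1]
  rw [integral_const_mul]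
  congr 1
  exact integral_add_right_eq_self (fun z => ‖f z‖ ^ 2 * gw z) ζ

lemma gn_one : gn (fun _ : Fin n → ℂ => (1 : ℂ)) = gc n := by
  unfold gn gc
  simp

lemma one_mem : (fun _ : Fin n → ℂ => (1 : ℂ)) ∈ ExpT n :=
  ⟨differentiable_const 1, 1, one_pos, 1, one_pos, fun z => by
    rw [norm_one, one_mul]
    exact Real.one_le_exp (by positivity)⟩

/-- The value at a point, with the sharp exponent. -/
lemma point_bound {f : (Fin n → ℂ) → ℂ} (hf : f ∈ ExpT n) (ζ : Fin n → ℂ) :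
    ‖f ζ‖ ^ 2 * gc n ≤ Real.exp (sq ζ) * gn f := by
  have h1 := gb_cs (sh_mem hf ζ) (one_mem (n := n))
  have h2 : gb (sh f ζ) (fun _ => 1) = f ζ * gc n := by
    have h3 := gauss_mean (sh_mem hf ζ)
    have h4 : sh f ζ 0 = f ζ := by simp [sh]
    rw [h4] at h3
    rw [← h3]
    unfold gb
    simp
  rw [h2, gn_sh, gn_one, norm_mul, Complex.norm_real, Real.norm_of_nonneg (gc_pos n).le,
    mul_pow] at h1
  have h5 := gc_pos n
  have h6 : (‖f ζ‖ ^ 2 * gc n) * gc n ≤ (Real.exp (sq ζ) * gn f) * gc n := by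
    calc (‖f ζ‖ ^ 2 * gc n) * gc n = ‖f ζ‖ ^ 2 * gc n ^ 2 := by ring
      _ ≤ _ := h1
  exact le_of_mul_le_mul_right h6 h5

end Pool.Agent.H16.FK
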