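import Pool.Agent.H16.FK.Basic
import Pool.Agent.H55.FB.Qpt
import Pool.Agent.H42.FB.Ton

/-!
Coercivity of multiplication by a nonzero polynomial in the Gaussian norm (helper16, for
MP_6e521b_an).
-/

open MvPolynomial Filter Topology MeasureTheory Pool.Agent.H77.FB Pool.Agent.H60.FB

namespace Pool.Agent.H16.FK

variable {n : ℕ}

lemma hp0 {P : MvPolynomial (Fin n) ℂ} {m : ℕ} (hP : P.totalDegree ≤ m) (u : Fin n → ℂ) :
    hp P m 0 u = eval u (homogeneousComponent m P) := by
  rw [homogeneousComponent_apply, map_sum]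
  unfold hp
  rw [Finset.sum_filter]
  refine Finset.sum_congr rfl fun s hs => ?_
  have hd : s.degree ≤ m := (MvPolynomial.le_totalDegree hs).trans hP
  split_ifs with h
  · rw [h, Nat.sub_self, pow_zero, mul_one, eval_monomial, Finsupp.prod_fintype]
    intro i; exact pow_zero _
  · have : m - s.degree ≠ 0 := by omega
    rw [zero_pow this]
    ring

lemma hp1 (P : MvPolynomial (Fin n) ℂ) (m : ℕ) (u : Fin n → ℂ) :
    hp P m 1 u = eval u P := by
  rw [MvPolynomial.eval_eq']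
  unfold hp
  refine Finset.sum_congr rfl fun s _ => ?_
  rw [one_pow, mul_one]

/-- A direction in which the leading form does not vanish. -/
lemma exists_dir {P : MvPolynomial (Fin n) ℂ} (hP : P ≠ 0) :
    ∃ e : Fin n → ℂ, ‖e‖ ≤ 1 ∧ hp P P.totalDegree 0 e ≠ 0 := by
  have h1 : homogeneousComponent P.totalDegree P ≠ 0 := by
    intro h0
    obtain ⟨s, hs, hd'⟩ := Finset.exists_mem_eq_sup P.support (MvPolynomial.support_nonempty.2 hP)
      (fun s => s.sum fun _ e => e)
    have hd : s.degree = P.totalDegree := hd'.symm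
    have h2 : coeff s (homogeneousComponent P.totalDegree P) = coeff s P := by
      rw [coeff_homogeneousComponent, if_pos hd]
    rw [h0, coeff_zero] at h2
    exact (MvPolynomial.mem_support_iff.1 hs) h2.symm
  obtain ⟨u, hu⟩ : ∃ u : Fin n → ℂ, eval u (homogeneousComponent P.totalDegree P) ≠ 0 := by
    by_contra hcon
    push Not at hcon
    exact h1 (MvPolynomial.funext fun x => by rw [hcon x, map_zero])
  rw [← hp0 le_rfl] at hu
  have hpos : (0 : ℝ) < ‖u‖ + 1 := by positivity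
  refine ⟨(((‖u‖ + 1 : ℝ) : ℂ)⁻¹) • u, ?_, ?_⟩
  · rw [norm_smul, norm_inv, Complex.norm_real, Real.norm_of_nonneg hpos.le]
    rw [inv_mul_le_iff₀ hpos]
    linarith
  · have h3 := hp_smul (P := P) (m := P.totalDegree) le_rfl (((‖u‖ + 1 : ℝ) : ℂ)⁻¹) 0 u
    rw [mul_zero] at h3
    rw [h3]
    refine mul_ne_zero (pow_ne_zero _ (inv_ne_zero ?_)) hu
    exact_mod_cast hpos.ne'

lemma gw_line (z w : Fin n → ℂ) :
    ‖Complex.exp (∑ j, w j * (-(starRingEnd ℂ) (z j)))‖ ^ 2 * gw z
      = Real.exp (Pool.Agent.H60.FB.sq w) * gw (z + w) := by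
  have h1 := gw_shift w z
  have h2 : Real.exp (Pool.Agent.H60.FB.sq w) * gw w = 1 := by
    unfold gw Pool.Agent.H60.FB.sq
    rw [← Real.exp_add]
    simp
  have h3 : Real.exp (Pool.Agent.H60.FB.sq z) * gw z = 1 := by
    unfold gw Pool.Agent.H60.FB.sq
    rw [← Real.exp_add]
    simp
  have hw0 := gw_pos w
  set E := ‖Complex.exp (∑ j, w j * (-(starRingEnd ℂ) (z j)))‖ ^ 2 with hE
  rw [add_comm z w]
  calc E * gw z = (E * gw w) * (Real.exp (Pool.Agent.H60.FB.sq w) * gw z) := by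
        linear_combination (-(E * gw z)) * h2
    _ = (Real.exp (Pool.Agent.H60.FB.sq z) * gw (w + z))
          * (Real.exp (Pool.Agent.H60.FB.sq w) * gw z) := by rw [h1]
    _ = _ := by linear_combination (Real.exp (Pool.Agent.H60.FB.sq w) * gw (w + z)) * h3

/-- Coercivity. -/
theorem coercive {P : MvPolynomial (Fin n) ℂ} (hP : P ≠ 0) :
    ∃ c : ℝ, 0 < c ∧ ∀ v : (Fin n → ℂ) → ℂ, v ∈ ExpT n →
      c * gn v ≤ gn (fun z => eval z P * v z) := by
  obtain ⟨e, he, ha⟩ := exists_dir hP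
  set m := P.totalDegree with hm
  set a : ℂ := hp P m 0 e with ha'
  obtain ⟨C, hC, hmal⟩ := Pool.Agent.H55.FB.mal m m
  have ha0 : 0 < ‖a‖ := norm_pos_iff.2 ha
  set K₀ : ℝ := C * Real.exp (Pool.Agent.H60.FB.sq e) * 4 ^ m / ‖a‖ ^ 2 with hK₀
  have hK₀pos : 0 < K₀ := by positivity
  refine ⟨(14 * Real.pi * K₀)⁻¹, by positivity, fun v hv => ?_⟩
  have hPv : (fun z => eval z P * v z) ∈ ExpT n := (mulExp P ⟨v, hv⟩).2
  have hvd : Differentiable ℂ v := hv.1
  have hPc : Continuous (fun z : Fin n → ℂ => eval z P) := (differentiable_eval P).continuous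
  have key : ∀ z : Fin n → ℂ, ∀ t : ℝ, 1 / 2 < t → t ≤ 1 →
      ‖v z‖ ^ 2 * gw z ≤ K₀ * ∫ θ in (0 : ℝ)..2 * Real.pi,
        (‖eval (z + circleMap 0 t θ • e) P * v (z + circleMap 0 t θ • e)‖ ^ 2
          * gw (z + circleMap 0 t θ • e)) := by
    intro z t ht ht1
    have ht0 : 0 < t := by linarith
    set F : ℂ → ℂ := fun c => v (z + c • e)
      * Complex.exp (∑ j, (c • e) j * (-(starRingEnd ℂ) (z j))) with hF
    have hFd : Differentiable ℂ F := by
      have h1 : Differentiable ℂ (fun c : ℂ => z + c • e) :=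
        (differentiable_id.smul_const e).const_add z
      have h2 : Differentiable ℂ (fun c : ℂ =>
          Complex.exp (∑ j, (c • e) j * (-(starRingEnd ℂ) (z j)))) := by
        simp only [Pi.smul_apply, smul_eq_mul]
        fun_prop
      exact (hvd.comp h1).mul h2
    have h3 := hmal (Pool.Agent.H55.FB.lin P m 1 z e)
      (Pool.Agent.H55.FB.natDegree_lin (hm ▸ le_rfl) 1 z e) F hFd t ht0
    rw [Pool.Agent.H55.FB.coeff_lin_top (hm ▸ le_rfl)] at h3
    have hF0 : F 0 = v z := by simp [hF]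
    rw [hF0] at h3
    -- the integrand
    have h4 : ∀ θ : ℝ, ‖(Pool.Agent.H55.FB.lin P m 1 z e).eval (circleMap 0 t θ)
          * F (circleMap 0 t θ)‖ ^ 2 * gw z
        ≤ Real.exp (Pool.Agent.H60.FB.sq e)
          * (‖eval (z + circleMap 0 t θ • e) P * v (z + circleMap 0 t θ • e)‖ ^ 2
          * gw (z + circleMap 0 t θ • e)) := by
      intro θ
      rw [Pool.Agent.H55.FB.eval_lin, hp1]
      set c := circleMap 0 t θ with hc
      have hcn : ‖c‖ = t := by
        rw [hc]; simp [abs_of_pos ht0]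
      have h5 : ‖eval (z + c • e) P * F c‖ ^ 2 * gw z
          = ‖eval (z + c • e) P * v (z + c • e)‖ ^ 2
            * (Real.exp (Pool.Agent.H60.FB.sq (c • e)) * gw (z + c • e)) := by
        rw [← gw_line z (c • e)]
        simp only [hF, norm_mul]
        ring
      rw [h5]
      have h6 : Real.exp (Pool.Agent.H60.FB.sq (c • e)) ≤ Real.exp (Pool.Agent.H60.FB.sq e) := by
        apply Real.exp_le_exp.2
        unfold Pool.Agent.H60.FB.sq
        refine Finset.sum_le_sum fun j _ => ?_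
        rw [Pi.smul_apply, norm_smul, hcn, mul_pow]
        have : t ^ 2 ≤ 1 := by nlinarith
        nlinarith [sq_nonneg ‖e j‖]
      have h7 : 0 ≤ ‖eval (z + c • e) P * v (z + c • e)‖ ^ 2 * gw (z + c • e) :=
        mul_nonneg (sq_nonneg _) (gw_pos _).le
      nlinarith [mul_le_mul_of_nonneg_right h6 h7]
    have hcont1 : Continuous (fun θ : ℝ => z + circleMap 0 t θ • e) :=
      continuous_const.add ((continuous_circleMap 0 t).smul continuous_const)
    have hcont2 : Continuous (fun θ : ℝ => (‖eval (z + circleMap 0 t θ • e) P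
        * v (z + circleMap 0 t θ • e)‖ ^ 2 * gw (z + circleMap 0 t θ • e))) :=
      (((hPc.comp hcont1).mul (hvd.continuous.comp hcont1)).norm.pow 2).mul
        (continuous_gw.comp hcont1)
    have hcont3 : Continuous (fun θ : ℝ => ‖(Pool.Agent.H55.FB.lin P m 1 z e).eval (circleMap 0 t θ)
          * F (circleMap 0 t θ)‖ ^ 2) :=
      ((((Pool.Agent.H55.FB.lin P m 1 z e).continuous.comp (continuous_circleMap 0 t)).mul
        (hFd.continuous.comp (continuous_circleMap 0 t))).norm.pow 2)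
    have h8 : (∫ θ in (0 : ℝ)..2 * Real.pi,
        ‖(Pool.Agent.H55.FB.lin P m 1 z e).eval (circleMap 0 t θ)
          * F (circleMap 0 t θ)‖ ^ 2) * gw z
        ≤ Real.exp (Pool.Agent.H60.FB.sq e) * ∫ θ in (0 : ℝ)..2 * Real.pi,
          (‖eval (z + circleMap 0 t θ • e) P * v (z + circleMap 0 t θ • e)‖ ^ 2
          * gw (z + circleMap 0 t θ • e)) := by
      rw [← intervalIntegral.integral_mul_const, ← intervalIntegral.integral_const_mul]
      refine intervalIntegral.integral_mono (by positivity) ?_ ?_ fun θ => h4 θ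
      · exact (hcont3.mul continuous_const).intervalIntegrable _ _
      · exact (hcont2.const_mul _).intervalIntegrable _ _
    set I : ℝ := ∫ θ in (0 : ℝ)..2 * Real.pi,
          (‖eval (z + circleMap 0 t θ • e) P * v (z + circleMap 0 t θ • e)‖ ^ 2
          * gw (z + circleMap 0 t θ • e)) with hI
    have h9 : ‖v z‖ ^ 2 * gw z * (‖a‖ * t ^ m) ^ 2
        ≤ C * (Real.exp (Pool.Agent.H60.FB.sq e) * I) := by
      calc ‖v z‖ ^ 2 * gw z * (‖a‖ * t ^ m) ^ 2
          = (‖v z‖ ^ 2 * (‖a‖ * t ^ m) ^ 2) * gw z := by ring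
        _ ≤ (C * ∫ θ in (0 : ℝ)..2 * Real.pi,
            ‖(Pool.Agent.H55.FB.lin P m 1 z e).eval (circleMap 0 t θ)
            * F (circleMap 0 t θ)‖ ^ 2) * gw z :=
          mul_le_mul_of_nonneg_right h3 (gw_pos z).le
        _ = C * ((∫ θ in (0 : ℝ)..2 * Real.pi,
            ‖(Pool.Agent.H55.FB.lin P m 1 z e).eval (circleMap 0 t θ)
            * F (circleMap 0 t θ)‖ ^ 2) * gw z) := by ring
        _ ≤ _ := mul_le_mul_of_nonneg_left h8 hC.le
    have h10 : (1 / 4 : ℝ) ^ m ≤ (t ^ m) ^ 2 := by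
      rw [← pow_mul, mul_comm m 2, pow_mul]
      exact pow_le_pow_left₀ (by norm_num) (by nlinarith) m
    have h11 : 0 ≤ ‖v z‖ ^ 2 * gw z := mul_nonneg (sq_nonneg _) (gw_pos z).le
    have h12 : ‖v z‖ ^ 2 * gw z * ‖a‖ ^ 2 * (1 / 4 : ℝ) ^ m
        ≤ C * (Real.exp (Pool.Agent.H60.FB.sq e) * I) := by
      refine le_trans ?_ h9
      rw [mul_pow]
      nlinarith [mul_le_mul_of_nonneg_left h10 (mul_nonneg h11 (sq_nonneg ‖a‖))]
    rw [hK₀, div_mul_eq_mul_div, le_div_iff₀ (by positivity)]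
    have h13 : (4 : ℝ) ^ m * (1 / 4 : ℝ) ^ m = 1 := by
      rw [← mul_pow]; norm_num
    calc ‖v z‖ ^ 2 * gw z * ‖a‖ ^ 2
        = (‖v z‖ ^ 2 * gw z * ‖a‖ ^ 2 * (1 / 4 : ℝ) ^ m) * 4 ^ m := by
          linear_combination (-(‖v z‖ ^ 2 * gw z * ‖a‖ ^ 2)) * h13
      _ ≤ (C * (Real.exp (Pool.Agent.H60.FB.sq e) * I)) * 4 ^ m :=
          mul_le_mul_of_nonneg_right h12 (by positivity)
      _ = _ := by ring
  have h := (Pool.Agent.H42.FB.ton (g := fun _ : Fin n → ℂ => (1 : ℝ))
    (K := fun z => ‖eval z P * v z‖ ^ 2 * gw z) (B := fun z => ‖v z‖ ^ 2 * gw z)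
    (l := 1) (C := K₀) (v := e) continuous_const one_pos
    (fun z _ w _ => ⟨by norm_num, by norm_num⟩)
    (fun z => mul_nonneg (sq_nonneg _) (gw_pos z).le)
    (((hPc.mul hvd.continuous).norm.pow 2).mul continuous_gw) (gn_int hPv)
    (fun z => mul_nonneg (sq_nonneg _) (gw_pos z).le)
    ((hvd.continuous.norm.pow 2).mul continuous_gw) he hK₀pos.le
    (fun z _ t ht ht1 => key z t (by linarith) (by linarith))).2
  have h1 : {z : Fin n → ℂ | (0 : ℝ) < 1} = Set.univ := by
    ext z; simp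
  rw [h1, setIntegral_univ] at h
  change gn v ≤ 14 * Real.pi * K₀ * gn (fun z => eval z P * v z) at h
  rw [inv_mul_le_iff₀ (by positivity)]
  exact h

end Pool.Agent.H16.FK
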