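import Pool.Agent.H16.FK.Basic

/-!
Minimising sequences for a quadratic functional, and locally uniform limits of entire functions
(helper16, for MP_6e521b_an).
-/

open MvPolynomial Filter Topology MeasureTheory Pool.Agent.H77.FB Pool.Agent.H60.FB

namespace Pool.Agent.H16.FK

lemma minim {X : Type*} [AddCommGroup X] [Module ℂ X] (b : X → X → ℂ) (L : X → ℂ) (q : X → ℝ)
    (hq : ∀ u, b u u = q u) (hq0 : ∀ u, 0 ≤ q u)
    (hb1 : ∀ u v w (t : ℂ), b (u + t • v) w = b u w + t * b v w)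
    (hbc : ∀ u v, (starRingEnd ℂ) (b u v) = b v u)
    (hL : ∀ u v (t : ℂ), L (u + t • v) = L u + (starRingEnd ℂ) t * L v)
    {K : ℝ} (hLK : ∀ u, ‖L u‖ ^ 2 ≤ K ^ 2 * q u) {ε : ℝ} (hε : 0 < ε) :
    ∃ v : X, ∀ w, ‖b v w - L w‖ ^ 2 ≤ ε ^ 2 * q w := by
  set E : X → ℝ := fun v => q v - 2 * (L v).re with hE
  have hbdd : BddBelow (Set.range E) := by
    refine ⟨-K ^ 2, ?_⟩
    rintro _ ⟨v, rfl⟩
    change -K ^ 2 ≤ q v - 2 * (L v).re
    have h1 := hLK v
    have h2 : (L v).re ≤ ‖L v‖ := Complex.re_le_norm _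
    have h3 := hq0 v
    have h4 : ‖L v‖ ≤ (K ^ 2 + q v) / 2 := by
      refine abs_le_of_sq_le_sq' (a := ‖L v‖) ?_ (by positivity) |>.2
      nlinarith [sq_nonneg (K ^ 2 - q v)]
    linarith
  obtain ⟨v, hv⟩ : ∃ v, E v < iInf E + ε ^ 2 :=
    exists_lt_of_ciInf_lt (lt_add_of_pos_right _ (by positivity))
  refine ⟨v, fun w => ?_⟩
  set r : ℂ := b v w - L w with hr
  have key : ∀ s : ℝ, 2 * s * ‖r‖ ^ 2 - s ^ 2 * ‖r‖ ^ 2 * q w < ε ^ 2 := by
    intro s
    set t : ℂ := -(s : ℂ) * r with ht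
    have h1 : iInf E ≤ E (v + t • w) := ciInf_le hbdd _
    have h2 : b (v + t • w) (v + t • w)
        = q v + (starRingEnd ℂ) t * b v w + t * (starRingEnd ℂ) (b v w)
          + t * (starRingEnd ℂ) t * q w := by
      have e1 : b v (v + t • w) = q v + (starRingEnd ℂ) t * b v w := by
        rw [← hbc (v + t • w) v, hb1, map_add, map_mul, hbc, hbc, hq]
      have e2 : b w (v + t • w) = (starRingEnd ℂ) (b v w) + (starRingEnd ℂ) t * q w := by
        rw [← hbc (v + t • w) w, hb1, map_add, map_mul, hq w, Complex.conj_ofReal]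
      rw [hb1, e1, e2]
      ring
    rw [hq] at h2
    have h3 : q (v + t • w) = q v + 2 * ((starRingEnd ℂ) t * b v w).re + ‖t‖ ^ 2 * q w := by
      have e3 := congrArg Complex.re h2
      have e4 : t * (starRingEnd ℂ) t * q w = ((‖t‖ ^ 2 * q w : ℝ) : ℂ) := by
        rw [Complex.mul_conj, Complex.normSq_eq_norm_sq]; push_cast; ring
      have e5 : t * (starRingEnd ℂ) (b v w) = (starRingEnd ℂ) ((starRingEnd ℂ) t * b v w) := by
        rw [map_mul, Complex.conj_conj]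
      rw [e4, e5] at e3
      simp only [Complex.add_re, Complex.ofReal_re, Complex.conj_re] at e3
      linarith
    have h4 : (L (v + t • w)).re = (L v).re + ((starRingEnd ℂ) t * L w).re := by
      rw [hL, Complex.add_re]
    have h5 : E (v + t • w) = E v + 2 * ((starRingEnd ℂ) t * r).re + ‖t‖ ^ 2 * q w := by
      change q (v + t • w) - 2 * (L (v + t • w)).re = q v - 2 * (L v).re + _ + _
      rw [h3, h4, hr, mul_sub, Complex.sub_re]
      ring
    have h6 : ((starRingEnd ℂ) t * r).re = -(s * ‖r‖ ^ 2) := by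
      have e6 : (starRingEnd ℂ) t * r = ((-(s * ‖r‖ ^ 2) : ℝ) : ℂ) := by
        rw [ht, map_mul, map_neg, Complex.conj_ofReal, mul_assoc, mul_comm ((starRingEnd ℂ) r) r,
          Complex.mul_conj, Complex.normSq_eq_norm_sq]
        push_cast; ring
      rw [e6, Complex.ofReal_re]
    have h7 : ‖t‖ ^ 2 = s ^ 2 * ‖r‖ ^ 2 := by
      rw [ht, norm_mul, norm_neg, Complex.norm_real, mul_pow, Real.norm_eq_abs, sq_abs]
    rw [h6, h7] at h5
    nlinarith
  rcases (hq0 w).eq_or_lt with h0 | h0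
  · rw [← h0, mul_zero]
    by_contra hcon
    push Not at hcon
    have h1 := key (ε ^ 2 / ‖r‖ ^ 2)
    rw [← h0, mul_zero, sub_zero, mul_assoc, div_mul_cancel₀ _ hcon.ne'] at h1
    nlinarith [sq_pos_of_pos hε]
  · have h1 := key (1 / q w)
    have h2 : 2 * (1 / q w) * ‖r‖ ^ 2 - (1 / q w) ^ 2 * ‖r‖ ^ 2 * q w = ‖r‖ ^ 2 / q w := by
      field_simp
      ring
    rw [h2, div_lt_iff₀ h0] at h1
    exact h1.le

variable {n : ℕ}

/-- Locally uniform limits of entire functions are entire. -/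
lemma entire_lim {f : ℕ → (Fin n → ℂ) → ℂ} {h : (Fin n → ℂ) → ℂ}
    (hf : ∀ k, Differentiable ℂ (f k))
    (hu : ∀ R : ℝ, ∃ M : ℝ, ∀ k z, ‖z‖ ≤ R → ‖f k z - h z‖ ≤ M / (k + 1)) :
    Differentiable ℂ h := by
  have hlim : ∀ z, Tendsto (fun k => f k z) atTop (𝓝 (h z)) := by
    intro z
    obtain ⟨M, hM⟩ := hu ‖z‖
    rw [tendsto_iff_norm_sub_tendsto_zero]
    refine squeeze_zero (fun _ => norm_nonneg _) (fun k => hM k z le_rfl) ?_
    have := (tendsto_one_div_add_atTop_nhds_zero_nat (𝕜 := ℝ)).const_mul M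
    simpa [div_eq_mul_inv] using this
  intro z₀
  set R : ℝ := ‖z₀‖ + 1 with hR
  obtain ⟨M, hM⟩ := hu (R + 1)
  have hMk : ∀ k l z, ‖z‖ ≤ R + 1 → ‖f k z - f l z‖ ≤ M / (k + 1) + M / (l + 1) := by
    intro k l z hz
    have e : f k z - f l z = (f k z - h z) - (f l z - h z) := by ring
    rw [e]
    exact (norm_sub_le _ _).trans (add_le_add (hM k z hz) (hM l z hz))
  have hder : ∀ k l z, ‖z‖ ≤ R → ‖fderiv ℂ (f k) z - fderiv ℂ (f l) z‖
      ≤ M / (k + 1) + M / (l + 1) := by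
    intro k l z hz
    rw [← fderiv_fun_sub (hf k z) (hf l z)]
    refine fderiv_bound ((hf k).sub (hf l)) fun w hw => hMk k l w ?_
    have := norm_add_le z (w - z)
    rw [add_sub_cancel] at this
    linarith
  have hM0 : Tendsto (fun k : ℕ => M / ((k : ℝ) + 1)) atTop (𝓝 0) := by
    have := (tendsto_one_div_add_atTop_nhds_zero_nat (𝕜 := ℝ)).const_mul M
    simpa [div_eq_mul_inv] using this
  have hcau : ∀ z, ‖z‖ ≤ R → ∃ G, Tendsto (fun k => fderiv ℂ (f k) z) atTop (𝓝 G) := by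
    intro z hz
    apply cauchySeq_tendsto_of_complete
    rw [Metric.cauchySeq_iff']
    intro δ hδ
    obtain ⟨N, hN⟩ := (Metric.tendsto_atTop.1 hM0) (δ / 2) (by positivity)
    refine ⟨N, fun k hk => ?_⟩
    rw [dist_eq_norm]
    have h1 := hN k hk
    have h2 := hN N le_rfl
    rw [Real.dist_0_eq_abs] at h1 h2
    have h3 := hder k N z hz
    have h4 := le_abs_self (M / ((k : ℝ) + 1))
    have h5 := le_abs_self (M / ((N : ℝ) + 1))
    linarith
  choose! G hG using hcau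
  have hGb : ∀ k z, ‖z‖ ≤ R → ‖G z - fderiv ℂ (f k) z‖ ≤ M / (k + 1) := by
    intro k z hz
    have h1 : Tendsto (fun l => ‖fderiv ℂ (f l) z - fderiv ℂ (f k) z‖) atTop
        (𝓝 ‖G z - fderiv ℂ (f k) z‖) := ((hG z hz).sub_const _).norm
    have h2 : Tendsto (fun l : ℕ => M / ((l : ℝ) + 1) + M / ((k : ℝ) + 1)) atTop
        (𝓝 (0 + M / ((k : ℝ) + 1))) := hM0.add_const _
    rw [zero_add] at h2
    exact le_of_tendsto_of_tendsto' h1 h2 fun l => hder l k z hz
  have hunif : TendstoUniformlyOn (fun k => fderiv ℂ (f k)) G atTop (Metric.ball z₀ 1) := by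
    rw [Metric.tendstoUniformlyOn_iff]
    intro δ hδ
    obtain ⟨N, hN⟩ := (Metric.tendsto_atTop.1 hM0) δ hδ
    filter_upwards [eventually_ge_atTop N] with k hk z hz
    rw [dist_eq_norm]
    have h1 := hN k hk
    rw [Real.dist_0_eq_abs] at h1
    have hzR : ‖z‖ ≤ R := by
      have h2 : ‖z - z₀‖ < 1 := by rwa [← dist_eq_norm]
      have := norm_add_le z₀ (z - z₀)
      rw [add_sub_cancel] at this
      linarith
    exact (hGb k z hzR).trans_lt ((le_abs_self _).trans_lt h1)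
  exact (hasFDerivAt_of_tendstoUniformlyOn Metric.isOpen_ball hunif
    (fun k x _ => (hf k x).hasFDerivAt) (fun x _ => hlim x)
    (Metric.mem_ball_self one_pos)).differentiableAt

end Pool.Agent.H16.FK
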